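import Pool.Agent.MPSIndex.Defs
import Pool.Agent.MPSIndex.Exact

/-!
# The largest injectivity index of normal matrix product states: `N(D) = D² - D + 1`

The definitions are in `Pool/Agent/MPSIndex/Defs.lean`, the proofs in `Pool/Agent/MPSIndex/`.

Idea of the upper bound when the span `S` of the matrices contains an invertible matrix: let
`N_k(u) = {X ∈ S^k : X u = 0}`.  If `S^(k+1) ≠ M_D(ℂ)`, then for every `u ≠ 0` there is `w ≠ 0` with
`dim N_(k+1)(w) > dim N_k(u)`; since `dim N_k(u) ≤ D² - D`, the powers are full from
`D² - D + 1` on.  If `S` contains no invertible matrix, the restrictions of the powers of `S` to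
the stable image of the generic product grow strictly until they are full.
-/

namespace Pool.Agent.Results.MP_4e951d_mp.Exact

open Pool.Agent.MPSIndex

/-- For every `D ≥ 1`, the largest injectivity index of a normal tuple of complex `D × D` matrices
exists and equals `D² - D + 1`. -/
theorem result (D : ℕ) (hD : 1 ≤ D) :
    IsGreatest (indexSet D) (D ^ 2 - D + 1) ∧ maxIndex D = D ^ 2 - D + 1 :=
  ⟨isGreatest_sharp hD, maxIndex_eq hD⟩

end Pool.Agent.Results.MP_4e951d_mp.Exact
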